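import Pool.Agent.W_7d29a1_F.CoreD2

/-!
MP_7d29a1_pr, STORM X, section (NL), the deterministic part: the paths which touch two tubes.
`T` is a tube in early rows, `T'` a tube in late rows, four environments `g00, g10, g01, g11` which agree off `T` (first index)
and off `T'` (second index). No law, every tilt `s`.
-/

set_option autoImplicit false

namespace Pool.Agent.W_7d29a1_X68

open MeasureTheory ProbabilityTheory Filter Topology Pool.Agent.W_7d29a1_F

noncomputable section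

variable {μ : Measure ℝ} {s : ℝ}

theorem Zr_zero68 (R : Set Pt) (η : Env) (a : Pt) (y : ℤ) : Zr R η a 0 y = if y = 0 then 1 else 0 := rfl

theorem Zr_succ68 (R : Set Pt) (η : Env) (a : Pt) (n : ℕ) (y : ℤ) :
    Zr R η a (n + 1) y = R.indicator (fun p => Real.exp (η p)) (a.1 + (n + 1), a.2 + y) *
      (Zr R η a n y + Zr R η a n (y - 1)) := rfl

/-- The weight only depends on the sites of `R` in the rows of the paths. -/
theorem Zr_cong {R R' : Set Pt} {η η' : Env} {a : Pt} {n : ℕ}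
    (h : ∀ p : Pt, a.1 < p.1 → p.1 ≤ a.1 + n → ((p ∈ R ↔ p ∈ R') ∧ (p ∈ R → η p = η' p))) (y : ℤ) :
    Zr R η a n y = Zr R' η' a n y := by
  induction n generalizing y with
  | zero => rfl
  | succ n ih =>
    have ih' := fun y => ih (fun p h1 h2 => h p h1 (by push_cast; linarith)) y
    rw [Zr_succ68, Zr_succ68, ih' y, ih' (y - 1)]
    congr 1
    have h1 := h ((a.1 + ((n : ℤ) + 1), a.2 + y) : Pt) (by show a.1 < a.1 + ((n : ℤ) + 1); omega)
      (by show a.1 + ((n : ℤ) + 1) ≤ a.1 + ((n + 1 : ℕ) : ℤ); push_cast; omega)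
    by_cases hR : ((a.1 + ((n : ℤ) + 1), a.2 + y) : Pt) ∈ R
    · rw [Set.indicator_of_mem hR, Set.indicator_of_mem (h1.1.1 hR), h1.2 hR]
    · rw [Set.indicator_of_notMem hR, Set.indicator_of_notMem fun h2 => hR (h1.1.2 h2)]

open Classical in
/-- Decomposition at the last site in `S`. -/
theorem Zr_last (R S : Set Pt) (η : Env) (a : Pt) (n : ℕ) (y : ℤ) :
    Zr R η a n y = Zr (R \ S) η a n y + ∑ k ∈ Finset.range n, ∑ x ∈ Finset.Icc (0 : ℤ) ((k : ℤ) + 1),
      if ((a.1 + ((k : ℤ) + 1), a.2 + x) : Pt) ∈ S then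
        Zr R η a (k + 1) x * Zr (R \ S) η (a.1 + ((k : ℤ) + 1), a.2 + x) (n - (k + 1)) (y - x) else 0 := by
  induction n generalizing y with
  | zero =>
    rw [Finset.range_zero, Finset.sum_empty, add_zero]
    rfl
  | succ n ih =>
    obtain ⟨g, hg⟩ : ∃ g : ℤ → ℝ, g = fun y => ∑ k ∈ Finset.range n, ∑ x ∈ Finset.Icc (0 : ℤ) ((k : ℤ) + 1),
      if ((a.1 + ((k : ℤ) + 1), a.2 + x) : Pt) ∈ S then
        Zr R η a (k + 1) x * Zr (R \ S) η (a.1 + ((k : ℤ) + 1), a.2 + x) (n - (k + 1)) (y - x) else 0 := ⟨_, rfl⟩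
    have ih' : ∀ y, Zr R η a n y = Zr (R \ S) η a n y + g y := fun y => by rw [ih y, hg]
    -- the terms with `k < n`
    have h1 : (∑ k ∈ Finset.range n, ∑ x ∈ Finset.Icc (0 : ℤ) ((k : ℤ) + 1),
        if ((a.1 + ((k : ℤ) + 1), a.2 + x) : Pt) ∈ S then
          Zr R η a (k + 1) x * Zr (R \ S) η (a.1 + ((k : ℤ) + 1), a.2 + x) (n + 1 - (k + 1)) (y - x) else 0) =
        (R \ S).indicator (fun p => Real.exp (η p)) (a.1 + (n + 1), a.2 + y) * (g y + g (y - 1)) := by
      rw [hg, ← Finset.sum_add_distrib, Finset.mul_sum]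
      refine Finset.sum_congr rfl fun k hk => ?_
      rw [← Finset.sum_add_distrib, Finset.mul_sum]
      refine Finset.sum_congr rfl fun x _ => ?_
      rw [Finset.mem_range] at hk
      split_ifs with hS
      · have e1 : n + 1 - (k + 1) = n - (k + 1) + 1 := by omega
        have e2 : a.1 + ((k : ℤ) + 1) + (((n - (k + 1) : ℕ) : ℤ) + 1) = a.1 + ((n : ℤ) + 1) := by
          have : ((n - (k + 1) : ℕ) : ℤ) = (n : ℤ) - (k + 1) := by omega
          rw [this]
          ring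
        have e3 : a.2 + x + (y - x) = a.2 + y := by ring
        have e4 : y - 1 - x = y - x - 1 := by ring
        have e5 : Zr (R \ S) η (a.1 + ((k : ℤ) + 1), a.2 + x) (n - (k + 1) + 1) (y - x) =
            (R \ S).indicator (fun p => Real.exp (η p)) (a.1 + ((n : ℤ) + 1), a.2 + y) *
              (Zr (R \ S) η (a.1 + ((k : ℤ) + 1), a.2 + x) (n - (k + 1)) (y - x) +
                Zr (R \ S) η (a.1 + ((k : ℤ) + 1), a.2 + x) (n - (k + 1)) (y - x - 1)) := by
          rw [← e2, ← e3]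
          rfl
        rw [e1, e5, e4]
        ring
      · ring
    -- the term with `k = n`
    have h2 : (∑ x ∈ Finset.Icc (0 : ℤ) ((n : ℤ) + 1), if ((a.1 + ((n : ℤ) + 1), a.2 + x) : Pt) ∈ S then
          Zr R η a (n + 1) x * Zr (R \ S) η (a.1 + ((n : ℤ) + 1), a.2 + x) (n + 1 - (n + 1)) (y - x) else 0) =
        if ((a.1 + ((n : ℤ) + 1), a.2 + y) : Pt) ∈ S then Zr R η a (n + 1) y else 0 := by
      rw [Nat.sub_self]
      by_cases hy : y ∈ Finset.Icc (0 : ℤ) ((n : ℤ) + 1)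
      · rw [Finset.sum_eq_single_of_mem y hy]
        · rw [Zr_zero68, if_pos (sub_self y), mul_one]
        · intro b _ hb
          rw [Zr_zero68, if_neg (sub_ne_zero.2 hb.symm), mul_zero, ite_self]
      · rw [Zr_eq_zero R η a (n := n + 1) (y := y) (by rw [Finset.mem_Icc] at hy; push_cast; exact hy), ite_self]
        refine Finset.sum_eq_zero fun x hx => ?_
        have h3 : ¬ (y - x = 0) := by
          intro h3
          have : x = y := by omega
          rw [this] at hx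
          exact hy hx
        rw [Zr_zero68, if_neg h3, mul_zero, ite_self]
    rw [Finset.sum_range_succ, h1, h2, Zr_succ68 (R \ S)]
    by_cases hS : ((a.1 + ((n : ℤ) + 1), a.2 + y) : Pt) ∈ S
    · rw [if_pos hS, Set.indicator_of_notMem (s := R \ S) (fun h3 => h3.2 hS)]
      ring
    · rw [if_neg hS, Zr_succ68, ih' y, ih' (y - 1)]
      have h3 : (R \ S).indicator (fun p => Real.exp (η p)) (a.1 + ((n : ℤ) + 1), a.2 + y) =
          R.indicator (fun p => Real.exp (η p)) (a.1 + ((n : ℤ) + 1), a.2 + y) := by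
        by_cases hR : ((a.1 + ((n : ℤ) + 1), a.2 + y) : Pt) ∈ R
        · rw [Set.indicator_of_mem hR, Set.indicator_of_mem (s := R \ S) ⟨hR, hS⟩]
        · rw [Set.indicator_of_notMem hR, Set.indicator_of_notMem (s := R \ S) fun h4 => hR h4.1]
      rw [h3]
      ring

open Classical in
/-- Decomposition at the first site in `S`. -/
theorem Zr_first {R S : Set Pt} (hSR : S ⊆ R) (η : Env) (a : Pt) (n : ℕ) (y : ℤ) :
    Zr R η a n y = Zr (R \ S) η a n y + ∑ k ∈ Finset.range n, ∑ x ∈ Finset.Icc (0 : ℤ) ((k : ℤ) + 1),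
      if ((a.1 + ((k : ℤ) + 1), a.2 + x) : Pt) ∈ S then
        Zr (insert ((a.1 + ((k : ℤ) + 1), a.2 + x) : Pt) (R \ S)) η a (k + 1) x *
          Zr R η (a.1 + ((k : ℤ) + 1), a.2 + x) (n - (k + 1)) (y - x) else 0 := by
  induction n generalizing y with
  | zero =>
    rw [Finset.range_zero, Finset.sum_empty, add_zero]
    rfl
  | succ n ih =>
    obtain ⟨g, hg⟩ : ∃ g : ℤ → ℝ, g = fun y => ∑ k ∈ Finset.range n, ∑ x ∈ Finset.Icc (0 : ℤ) ((k : ℤ) + 1),
      if ((a.1 + ((k : ℤ) + 1), a.2 + x) : Pt) ∈ S then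
        Zr (insert ((a.1 + ((k : ℤ) + 1), a.2 + x) : Pt) (R \ S)) η a (k + 1) x *
          Zr R η (a.1 + ((k : ℤ) + 1), a.2 + x) (n - (k + 1)) (y - x) else 0 := ⟨_, rfl⟩
    have ih' : ∀ y, Zr R η a n y = Zr (R \ S) η a n y + g y := fun y => by rw [ih y, hg]
    -- the terms with `k < n`
    have h1 : (∑ k ∈ Finset.range n, ∑ x ∈ Finset.Icc (0 : ℤ) ((k : ℤ) + 1),
        if ((a.1 + ((k : ℤ) + 1), a.2 + x) : Pt) ∈ S then
          Zr (insert ((a.1 + ((k : ℤ) + 1), a.2 + x) : Pt) (R \ S)) η a (k + 1) x *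
            Zr R η (a.1 + ((k : ℤ) + 1), a.2 + x) (n + 1 - (k + 1)) (y - x) else 0) =
        R.indicator (fun p => Real.exp (η p)) (a.1 + (n + 1), a.2 + y) * (g y + g (y - 1)) := by
      rw [hg, ← Finset.sum_add_distrib, Finset.mul_sum]
      refine Finset.sum_congr rfl fun k hk => ?_
      rw [← Finset.sum_add_distrib, Finset.mul_sum]
      refine Finset.sum_congr rfl fun x _ => ?_
      rw [Finset.mem_range] at hk
      split_ifs with hS
      · have e1 : n + 1 - (k + 1) = n - (k + 1) + 1 := by omega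
        have e2 : a.1 + ((k : ℤ) + 1) + (((n - (k + 1) : ℕ) : ℤ) + 1) = a.1 + ((n : ℤ) + 1) := by
          have : ((n - (k + 1) : ℕ) : ℤ) = (n : ℤ) - (k + 1) := by omega
          rw [this]
          ring
        have e3 : a.2 + x + (y - x) = a.2 + y := by ring
        have e4 : y - 1 - x = y - x - 1 := by ring
        have e5 : Zr R η (a.1 + ((k : ℤ) + 1), a.2 + x) (n - (k + 1) + 1) (y - x) =
            R.indicator (fun p => Real.exp (η p)) (a.1 + ((n : ℤ) + 1), a.2 + y) *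
              (Zr R η (a.1 + ((k : ℤ) + 1), a.2 + x) (n - (k + 1)) (y - x) +
                Zr R η (a.1 + ((k : ℤ) + 1), a.2 + x) (n - (k + 1)) (y - x - 1)) := by
          rw [← e2, ← e3]
          rfl
        rw [e1, e5, e4]
        ring
      · ring
    -- the term with `k = n`
    have h2 : (∑ x ∈ Finset.Icc (0 : ℤ) ((n : ℤ) + 1), if ((a.1 + ((n : ℤ) + 1), a.2 + x) : Pt) ∈ S then
          Zr (insert ((a.1 + ((n : ℤ) + 1), a.2 + x) : Pt) (R \ S)) η a (n + 1) x *
            Zr R η (a.1 + ((n : ℤ) + 1), a.2 + x) (n + 1 - (n + 1)) (y - x) else 0) =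
        if ((a.1 + ((n : ℤ) + 1), a.2 + y) : Pt) ∈ S then
          Real.exp (η (a.1 + ((n : ℤ) + 1), a.2 + y)) * (Zr (R \ S) η a n y + Zr (R \ S) η a n (y - 1)) else 0 := by
      rw [Nat.sub_self]
      by_cases hy : y ∈ Finset.Icc (0 : ℤ) ((n : ℤ) + 1)
      · rw [Finset.sum_eq_single_of_mem y hy]
        · rw [Zr_zero68, if_pos (sub_self y), mul_one]
          split_ifs with hS
          · have h5 : ∀ z, Zr (insert ((a.1 + ((n : ℤ) + 1), a.2 + y) : Pt) (R \ S)) η a n z = Zr (R \ S) η a n z := by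
              intro z
              refine Zr_cong (fun p _ hp => ⟨⟨fun h6 => ?_, fun h6 => Set.mem_insert_of_mem _ h6⟩, fun _ => rfl⟩) z
              rcases h6 with h6 | h6
              · exfalso
                rw [h6] at hp
                simp only [] at hp
                omega
              · exact h6
            rw [Zr_succ68, Set.indicator_of_mem (Set.mem_insert _ _), h5, h5]
          · rfl
        · intro b _ hb
          rw [Zr_zero68, if_neg (sub_ne_zero.2 hb.symm), mul_zero, ite_self]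
      · rw [Finset.mem_Icc] at hy
        rw [Zr_eq_zero (R \ S) η a (n := n) (y := y) (by omega), Zr_eq_zero (R \ S) η a (n := n) (y := y - 1) (by omega),
          add_zero, mul_zero, ite_self]
        refine Finset.sum_eq_zero fun x hx => ?_
        have h3 : ¬ (y - x = 0) := by
          intro h3
          have : x = y := by omega
          rw [this, Finset.mem_Icc] at hx
          exact hy hx
        rw [Zr_zero68, if_neg h3, mul_zero, ite_self]
    rw [Finset.sum_range_succ, h1, h2, Zr_succ68 (R \ S), Zr_succ68 R, ih' y, ih' (y - 1)]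
    by_cases hS : ((a.1 + ((n : ℤ) + 1), a.2 + y) : Pt) ∈ S
    · rw [if_pos hS, Set.indicator_of_notMem (s := R \ S) (fun h3 => h3.2 hS), Set.indicator_of_mem (hSR hS)]
      ring
    · rw [if_neg hS]
      have h3 : (R \ S).indicator (fun p => Real.exp (η p)) (a.1 + ((n : ℤ) + 1), a.2 + y) =
          R.indicator (fun p => Real.exp (η p)) (a.1 + ((n : ℤ) + 1), a.2 + y) := by
        by_cases hR : ((a.1 + ((n : ℤ) + 1), a.2 + y) : Pt) ∈ R
        · rw [Set.indicator_of_mem hR, Set.indicator_of_mem (s := R \ S) ⟨hR, hS⟩]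
        · rw [Set.indicator_of_notMem hR, Set.indicator_of_notMem (s := R \ S) fun h4 => hR h4.1]
      rw [h3]
      ring

/-! ### Normalised weights -/

theorem WR_cong {R R' : Set Pt} {η η' : Env} {a : Pt} {n : ℕ}
    (h : ∀ p : Pt, a.1 < p.1 → p.1 ≤ a.1 + n → ((p ∈ R ↔ p ∈ R') ∧ (p ∈ R → η p = η' p))) (y : ℤ) :
    WR μ s R η a n y = WR μ s R' η' a n y := by
  unfold WR
  rw [Zr_cong h y]

theorem exp_split {k n : ℕ} (hk : k < n) (x y : ℤ) :
    Real.exp (s * y - n * lam μ s) = Real.exp (s * x - ((k + 1 : ℕ) : ℝ) * lam μ s) *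
      Real.exp (s * ((y - x : ℤ) : ℝ) - ((n - (k + 1) : ℕ) : ℝ) * lam μ s) := by
  rw [← Real.exp_add]
  congr 1
  rw [Nat.cast_sub (by omega : k + 1 ≤ n)]
  push_cast
  ring

open Classical in
theorem WR_last (R S : Set Pt) (η : Env) (a : Pt) (n : ℕ) (y : ℤ) :
    WR μ s R η a n y = WR μ s (R \ S) η a n y + ∑ k ∈ Finset.range n, ∑ x ∈ Finset.Icc (0 : ℤ) ((k : ℤ) + 1),
      if ((a.1 + ((k : ℤ) + 1), a.2 + x) : Pt) ∈ S then
        WR μ s R η a (k + 1) x * WR μ s (R \ S) η (a.1 + ((k : ℤ) + 1), a.2 + x) (n - (k + 1)) (y - x) else 0 := by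
  show Real.exp (s * y - n * lam μ s) * Zr R η a n y = _
  rw [Zr_last R S, mul_add, Finset.mul_sum]
  congr 1
  refine Finset.sum_congr rfl fun k hk => ?_
  rw [Finset.mul_sum]
  refine Finset.sum_congr rfl fun x _ => ?_
  split_ifs with h
  · unfold WR
    rw [exp_split (μ := μ) (s := s) (Finset.mem_range.1 hk) x y]
    ring
  · exact mul_zero _

open Classical in
theorem WR_first {R S : Set Pt} (hSR : S ⊆ R) (η : Env) (a : Pt) (n : ℕ) (y : ℤ) :
    WR μ s R η a n y = WR μ s (R \ S) η a n y + ∑ k ∈ Finset.range n, ∑ x ∈ Finset.Icc (0 : ℤ) ((k : ℤ) + 1),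
      if ((a.1 + ((k : ℤ) + 1), a.2 + x) : Pt) ∈ S then
        WR μ s (insert ((a.1 + ((k : ℤ) + 1), a.2 + x) : Pt) (R \ S)) η a (k + 1) x *
          WR μ s R η (a.1 + ((k : ℤ) + 1), a.2 + x) (n - (k + 1)) (y - x) else 0 := by
  show Real.exp (s * y - n * lam μ s) * Zr R η a n y = _
  rw [Zr_first hSR, mul_add, Finset.mul_sum]
  congr 1
  refine Finset.sum_congr rfl fun k hk => ?_
  rw [Finset.mul_sum]
  refine Finset.sum_congr rfl fun x _ => ?_
  split_ifs with h
  · unfold WR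
    rw [exp_split (μ := μ) (s := s) (Finset.mem_range.1 hk) x y]
    ring
  · exact mul_zero _

/-! ### Total weights -/

/-- The total weight of the paths of length `n` from `a` in `R`. -/
def TW (μ : Measure ℝ) (s : ℝ) (R : Set Pt) (η : Env) (a : Pt) (n : ℕ) : ℝ :=
  ∑ y ∈ Finset.Icc (0 : ℤ) n, WR μ s R η a n y

theorem WR_eq_zero (R : Set Pt) (η : Env) (a : Pt) {n : ℕ} {y : ℤ} (h : ¬ (0 ≤ y ∧ y ≤ n)) : WR μ s R η a n y = 0 := by
  unfold WR
  rw [Zr_eq_zero R η a h, mul_zero]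

theorem TW_nonneg (R : Set Pt) (η : Env) (a : Pt) (n : ℕ) : 0 ≤ TW μ s R η a n :=
  Finset.sum_nonneg fun y _ => WR_nonneg R η a n y

theorem TW_univ (η : Env) (a : Pt) (n : ℕ) : TW μ s Set.univ η a n = Real.exp (V μ s η a n) := by
  rw [exp_V]
  rfl

theorem TW_cong {R R' : Set Pt} {η η' : Env} {a : Pt} {n : ℕ}
    (h : ∀ p : Pt, a.1 < p.1 → p.1 ≤ a.1 + n → ((p ∈ R ↔ p ∈ R') ∧ (p ∈ R → η p = η' p))) :
    TW μ s R η a n = TW μ s R' η' a n :=
  Finset.sum_congr rfl fun y _ => WR_cong h y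

theorem TW_mono {R R' : Set Pt} (h : R ⊆ R') (η : Env) (a : Pt) (n : ℕ) : TW μ s R η a n ≤ TW μ s R' η a n :=
  Finset.sum_le_sum fun y _ => mul_le_mul_of_nonneg_left (Zr_mono h η a n y) (Real.exp_pos _).le

theorem TW_le_V (R : Set Pt) (η : Env) (a : Pt) (n : ℕ) : TW μ s R η a n ≤ Real.exp (V μ s η a n) :=
  (TW_mono (Set.subset_univ R) η a n).trans_eq (TW_univ η a n)

/-- The sum over all end points, seen from an intermediate site. -/
theorem TW_shift (R : Set Pt) (η : Env) (b : Pt) {k n : ℕ} (hk : k < n) {x : ℤ} (h0 : 0 ≤ x) (h1 : x ≤ (k : ℤ) + 1) :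
    ∑ y ∈ Finset.Icc (0 : ℤ) n, WR μ s R η b (n - (k + 1)) (y - x) = TW μ s R η b (n - (k + 1)) := by
  unfold TW
  have e : ((n - (k + 1) : ℕ) : ℤ) = (n : ℤ) - (k + 1) := by omega
  symm
  rw [← Finset.sum_subset (s₁ := Finset.Icc x (x + ((n - (k + 1) : ℕ) : ℤ))) (s₂ := Finset.Icc (0 : ℤ) n)
    (f := fun y => WR μ s R η b (n - (k + 1)) (y - x))]
  · refine Finset.sum_bij (fun y _ => y + x) ?_ ?_ ?_ ?_
    · intro y hy
      rw [Finset.mem_Icc] at hy ⊢
      omega
    · intro y _ y' _ h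
      linarith
    · intro z hz
      rw [Finset.mem_Icc] at hz
      exact ⟨z - x, Finset.mem_Icc.2 (by omega), by ring⟩
    · intro y _
      show WR μ s R η b (n - (k + 1)) y = WR μ s R η b (n - (k + 1)) (y + x - x)
      rw [add_sub_cancel_right]
  · intro y hy
    rw [Finset.mem_Icc] at hy ⊢
    omega
  · intro y _ hy
    refine WR_eq_zero R η b ?_
    intro h2
    apply hy
    rw [Finset.mem_Icc]
    omega

open Classical in
theorem TW_last (R S : Set Pt) (η : Env) (a : Pt) (n : ℕ) :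
    TW μ s R η a n = TW μ s (R \ S) η a n + ∑ k ∈ Finset.range n, ∑ x ∈ Finset.Icc (0 : ℤ) ((k : ℤ) + 1),
      if ((a.1 + ((k : ℤ) + 1), a.2 + x) : Pt) ∈ S then
        WR μ s R η a (k + 1) x * TW μ s (R \ S) η (a.1 + ((k : ℤ) + 1), a.2 + x) (n - (k + 1)) else 0 := by
  have h : TW μ s R η a n = ∑ y ∈ Finset.Icc (0 : ℤ) n, (WR μ s (R \ S) η a n y +
      ∑ k ∈ Finset.range n, ∑ x ∈ Finset.Icc (0 : ℤ) ((k : ℤ) + 1), if ((a.1 + ((k : ℤ) + 1), a.2 + x) : Pt) ∈ S then
        WR μ s R η a (k + 1) x * WR μ s (R \ S) η (a.1 + ((k : ℤ) + 1), a.2 + x) (n - (k + 1)) (y - x) else 0) :=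
    Finset.sum_congr rfl fun y _ => WR_last R S η a n y
  rw [h, Finset.sum_add_distrib, Finset.sum_comm]
  congr 1
  refine Finset.sum_congr rfl fun k hk => ?_
  rw [Finset.sum_comm]
  refine Finset.sum_congr rfl fun x hx => ?_
  rw [Finset.mem_Icc] at hx
  split_ifs with hS
  · rw [← Finset.mul_sum, TW_shift (R \ S) η _ (Finset.mem_range.1 hk) hx.1 hx.2]
  · exact Finset.sum_const_zero

open Classical in
theorem TW_first {R S : Set Pt} (hSR : S ⊆ R) (η : Env) (a : Pt) (n : ℕ) :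
    TW μ s R η a n = TW μ s (R \ S) η a n + ∑ k ∈ Finset.range n, ∑ x ∈ Finset.Icc (0 : ℤ) ((k : ℤ) + 1),
      if ((a.1 + ((k : ℤ) + 1), a.2 + x) : Pt) ∈ S then
        WR μ s (insert ((a.1 + ((k : ℤ) + 1), a.2 + x) : Pt) (R \ S)) η a (k + 1) x *
          TW μ s R η (a.1 + ((k : ℤ) + 1), a.2 + x) (n - (k + 1)) else 0 := by
  have h : TW μ s R η a n = ∑ y ∈ Finset.Icc (0 : ℤ) n, (WR μ s (R \ S) η a n y +
      ∑ k ∈ Finset.range n, ∑ x ∈ Finset.Icc (0 : ℤ) ((k : ℤ) + 1), if ((a.1 + ((k : ℤ) + 1), a.2 + x) : Pt) ∈ S then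
        WR μ s (insert ((a.1 + ((k : ℤ) + 1), a.2 + x) : Pt) (R \ S)) η a (k + 1) x *
          WR μ s R η (a.1 + ((k : ℤ) + 1), a.2 + x) (n - (k + 1)) (y - x) else 0) :=
    Finset.sum_congr rfl fun y _ => WR_first hSR η a n y
  rw [h, Finset.sum_add_distrib, Finset.sum_comm]
  congr 1
  refine Finset.sum_congr rfl fun k hk => ?_
  rw [Finset.sum_comm]
  refine Finset.sum_congr rfl fun x hx => ?_
  rw [Finset.mem_Icc] at hx
  split_ifs with hS
  · rw [← Finset.mul_sum, TW_shift R η _ (Finset.mem_range.1 hk) hx.1 hx.2]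
  · exact Finset.sum_const_zero

end

end Pool.Agent.W_7d29a1_X68
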